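import Mathlib

/-!
# Fixed points of morphisms

A morphism on the alphabet `A` is given by the images `φ a : List A` of the letters; the image of a
word `w` is `w.flatMap φ`. Infinite words are functions `y : ℕ → A`.
-/

set_option autoImplicit false

namespace Pool.Agent.R123.Words

variable {A : Type}

/-- the word `φ^k(a)` -/
def iter (φ : A → List A) (a : A) : ℕ → List A
  | 0 => [a]
  | k + 1 => (iter φ a k).flatMap φ

/-- `y = φ^ω(a)`: `φ(a)` begins with `a`, the lengths of the words `φ^k(a)` are unbounded, and
every word `φ^k(a)` is a beginning of the infinite word `y`. -/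
def IsFixedPoint (φ : A → List A) (a : A) (y : ℕ → A) : Prop :=
  (∃ t, φ a = a :: t) ∧ (∀ n, ∃ k, n ≤ (iter φ a k).length) ∧
    ∀ k, iter φ a k = (List.range (iter φ a k).length).map y

/-- the factor of length `L` of `y` at the place `n` -/
def fac (y : ℕ → A) (n L : ℕ) : List A := (List.range L).map (fun k => y (n + k))

theorem fac_length (y : ℕ → A) (n L : ℕ) : (fac y n L).length = L := by simp [fac]

theorem fac_add (y : ℕ → A) (n L M : ℕ) : fac y n (L + M) = fac y n L ++ fac y (n + L) M := by
  unfold fac
  rw [List.range_add, List.map_append, List.map_map]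
  congr 1
  apply List.map_congr_left
  intro r _
  simp [add_assoc]

theorem fac_one (y : ℕ → A) (n : ℕ) : fac y n 1 = [y n] := by simp [fac]

theorem fac_succ (y : ℕ → A) (n L : ℕ) : fac y n (L + 1) = fac y n L ++ [y (n + L)] := by
  rw [fac_add, fac_one]

theorem fac_succ' (y : ℕ → A) (n L : ℕ) : fac y n (L + 1) = y n :: fac y (n + 1) L := by
  rw [add_comm L 1, fac_add, fac_one]; rfl

theorem fac_getElem? (y : ℕ → A) (n L r : ℕ) (hr : r < L) : (fac y n L)[r]? = some (y (n + r)) := by
  simp [fac, hr]

/-- the place in `y` where the image of the letter number `n` begins -/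
def pos (φ : A → List A) (y : ℕ → A) (n : ℕ) : ℕ := ((fac y 0 n).flatMap φ).length

theorem pos_zero (φ : A → List A) (y : ℕ → A) : pos φ y 0 = 0 := by simp [pos, fac]

theorem pos_succ (φ : A → List A) (y : ℕ → A) (n : ℕ) :
    pos φ y (n + 1) = pos φ y n + (φ (y n)).length := by
  unfold pos
  rw [fac_succ, List.flatMap_append, List.length_append]
  simp

theorem pos_mono (φ : A → List A) (y : ℕ → A) : Monotone (pos φ y) :=
  monotone_nat_of_le_succ fun n => by rw [pos_succ]; omega

/-- the infinite word `y` is its own image -/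
theorem IsFixedPoint.flat0 {φ : A → List A} {a : A} {y : ℕ → A} (h : IsFixedPoint φ a y) (n : ℕ) :
    (fac y 0 n).flatMap φ = fac y 0 (pos φ y n) := by
  obtain ⟨_, h2, h3⟩ := h
  obtain ⟨k, hk⟩ := h2 n
  have e1 : iter φ a k = fac y 0 (iter φ a k).length := by
    conv_lhs => rw [h3 k]
    simp [fac]
  have e2 : iter φ a (k + 1) = fac y 0 (iter φ a (k + 1)).length := by
    conv_lhs => rw [h3 (k + 1)]
    simp [fac]
  have e3 : iter φ a (k + 1) = (iter φ a k).flatMap φ := rfl
  obtain ⟨M, hM⟩ : ∃ M, (iter φ a k).length = n + M := ⟨(iter φ a k).length - n, by omega⟩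
  rw [hM, fac_add] at e1
  rw [e1, List.flatMap_append] at e3
  have hl : pos φ y n ≤ (iter φ a (k + 1)).length := by
    rw [e3, List.length_append]
    exact Nat.le_add_right _ _
  obtain ⟨M', hM'⟩ : ∃ M', (iter φ a (k + 1)).length = pos φ y n + M' :=
    ⟨(iter φ a (k + 1)).length - pos φ y n, by omega⟩
  rw [hM', fac_add] at e2
  rw [e2] at e3
  refine (List.append_inj e3 ?_).1.symm
  rw [fac_length]
  rfl

theorem IsFixedPoint.block {φ : A → List A} {a : A} {y : ℕ → A} (h : IsFixedPoint φ a y) (n : ℕ) :
    φ (y n) = fac y (pos φ y n) (φ (y n)).length := by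
  have h1 := h.flat0 (n + 1)
  rw [fac_succ, List.flatMap_append, h.flat0 n, pos_succ, fac_add] at h1
  have h2 := List.append_cancel_left h1
  simpa using h2

theorem IsFixedPoint.y_pos {φ : A → List A} {a : A} {y : ℕ → A} (h : IsFixedPoint φ a y) (n r : ℕ)
    (hr : r < (φ (y n)).length) : (φ (y n))[r]? = some (y (pos φ y n + r)) := by
  rw [h.block n]
  exact fac_getElem? _ _ _ _ hr

theorem IsFixedPoint.flat {φ : A → List A} {a : A} {y : ℕ → A} (h : IsFixedPoint φ a y) (n L : ℕ) :
    (fac y n L).flatMap φ = fac y (pos φ y n) (pos φ y (n + L) - pos φ y n) := by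
  induction L with
  | zero => simp [fac]
  | succ L ih =>
    have hm := pos_mono φ y (show n ≤ n + L by omega)
    rw [fac_succ, List.flatMap_append, ih, ← add_assoc, pos_succ,
      show pos φ y (n + L) + (φ (y (n + L))).length - pos φ y n =
        (pos φ y (n + L) - pos φ y n) + (φ (y (n + L))).length by omega, fac_add,
      show pos φ y n + (pos φ y (n + L) - pos φ y n) = pos φ y (n + L) by omega, ← h.block]
    simp

/-- the limit of the words `φ^k(a)` -/
noncomputable def fixedWord (φ : A → List A) (a : A) (n : ℕ) : A :=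
  (iter φ a (n + 1)).getD n a

theorem iter_succ_append {φ : A → List A} {a : A} (h : ∃ t, φ a = a :: t) (k : ℕ) :
    ∃ r, iter φ a (k + 1) = iter φ a k ++ r := by
  induction k with
  | zero =>
    obtain ⟨t, ht⟩ := h
    exact ⟨t, by simp [iter, ht]⟩
  | succ k ih =>
    obtain ⟨r, hr⟩ := ih
    refine ⟨r.flatMap φ, ?_⟩
    rw [iter, hr, List.flatMap_append, ← hr]
    rfl

theorem iter_add_append {φ : A → List A} {a : A} (h : ∃ t, φ a = a :: t) (k m : ℕ) :
    ∃ r, iter φ a (k + m) = iter φ a k ++ r := by
  induction m with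
  | zero => exact ⟨[], by simp⟩
  | succ m ih =>
    obtain ⟨r, hr⟩ := ih
    obtain ⟨r', hr'⟩ := iter_succ_append h (k + m)
    exact ⟨r ++ r', by rw [← add_assoc, hr', hr, List.append_assoc]⟩

/-- if every letter has a nonempty image and `φ(a) = a t` with `t` nonempty, then `φ^ω(a)` exists -/
theorem isFixedPoint_fixedWord {φ : A → List A} {a : A} (h : ∃ t, φ a = a :: t)
    (hlen : 2 ≤ (φ a).length) (hne : ∀ b, φ b ≠ []) : IsFixedPoint φ a (fixedWord φ a) := by
  have hgrow : ∀ (w : List A), w.length ≤ (w.flatMap φ).length := by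
    intro w
    induction w with
    | nil => simp
    | cons b w ih =>
      rw [List.flatMap_cons, List.length_append, List.length_cons]
      have := List.length_pos_iff.2 (hne b)
      omega
  have hL : ∀ k, k + 1 ≤ (iter φ a k).length := by
    intro k
    induction k with
    | zero => simp [iter]
    | succ k ih =>
      obtain ⟨r, hr⟩ := iter_add_append h 0 k
      rw [zero_add] at hr
      rw [iter, hr, List.flatMap_append, List.length_append]
      have h1 := hgrow r
      have h2 : (iter φ a k).length = 1 + r.length := by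
        rw [hr, List.length_append]; rfl
      have h3 : ((iter φ a 0).flatMap φ).length = (φ a).length := by simp [iter]
      omega
  refine ⟨h, fun n => ⟨n, by have := hL n; omega⟩, fun k => ?_⟩
  apply List.ext_getElem?
  intro n
  rcases Nat.lt_or_ge n (iter φ a k).length with hn | hn
  · have h1 : ((List.range (iter φ a k).length).map (fixedWord φ a))[n]? =
        some (fixedWord φ a n) := by simp [hn]
    rw [h1, fixedWord]
    have hn' : n < (iter φ a (n + 1)).length := by have := hL (n + 1); omega
    rw [List.getD_eq_getElem?_getD]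
    rcases le_total k (n + 1) with hk | hk
    · obtain ⟨r, hr⟩ := iter_add_append h k (n + 1 - k)
      rw [show k + (n + 1 - k) = n + 1 by omega] at hr
      rw [hr, List.getElem?_append_left hn, List.getElem?_eq_getElem hn]
      rfl
    · obtain ⟨r, hr⟩ := iter_add_append h (n + 1) (k - (n + 1))
      rw [show n + 1 + (k - (n + 1)) = k by omega] at hr
      rw [hr, List.getElem?_append_left hn', List.getElem?_eq_getElem hn']
      rfl
  · rw [List.getElem?_eq_none hn, List.getElem?_eq_none (by simpa using hn)]

end Pool.Agent.R123.Words
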